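import Pool.Agent.SGL.StmtsG

/-!
# Squad SGL, row NXB: edges from `c`
-/

set_option autoImplicit false

namespace Pool.Agent.SGL.H75

open Pool.Agent.SGE Pool.Agent.SGP Pool.Agent.SGY Pool.Agent.SGD Pool.Agent.SGL

theorem nxb : NxbStmt := by
  intro V a c R s ρ f hf hinj q r t hc hq hr ht hcq hfirst hrt
  have hqc : q ≠ c := by
    rintro rfl
    exact lt_irrefl _ hcq
  -- lower points
  have hA : ∀ x ∈ R, x ≠ c → s x < s q → o (f c) (f q) (f x) < 0 := by
    intro x hx hxc hxq
    have h1 := hf.rc x hx q hq hxc hxq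
    rw [o_swap' (f c) (f q) (f x)]
    linarith
  -- points of the same slice
  have hlt : ∀ x ∈ R, x ≠ q → s x = s q → ρ q < ρ x := by
    intro x hx hxq hs
    rcases Nat.lt_or_ge (ρ q) (ρ x) with h | h
    · exact h
    · have h1 := hfirst x hx hs
      exact absurd (hinj x hx q hq (le_antisymm h h1)) hxq
  have hB : ∀ x ∈ R, x ≠ q → s x = s q → o (f c) (f q) (f x) < 0 := by
    intro x hx hxq hs
    have h1 := hf.dn q hq x hx c hc hs.symm (hlt x hx hxq hs) hcq
    rw [o_swap' (f c) (f q) (f x), o_rot (f c) (f x) (f q)]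
    linarith
  -- higher points
  have hC : ∀ x ∈ R, s q < s x → 0 < o (f c) (f q) (f x) := fun x hx hs =>
    hf.rc q hq x hx hqc hs
  by_cases h1 : c = r
  · exact com (Or.inl (by rw [h1]))
  by_cases h2 : c = t
  · exact com (Or.inr (Or.inl (by rw [h2])))
  by_cases h3 : q = r
  · exact com (Or.inr (Or.inr (Or.inl (by rw [h3]))))
  by_cases h4 : q = t
  · exact com (Or.inr (Or.inr (Or.inr (by rw [h4]))))
  have h1' : r ≠ c := fun h => h1 h.symm
  have h2' : t ≠ c := fun h => h2 h.symm
  have h3' : r ≠ q := fun h => h3 h.symm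
  have h4' : t ≠ q := fun h => h4 h.symm
  rcases hrt with ⟨hs, _⟩ | hs
  · rcases lt_trichotomy (s r) (s q) with h | h | h
    · exact same_neg (hA r hr h1' h) (hA t ht h2' (by omega))
    · exact same_neg (hB r hr h3' h) (hB t ht h4' (by omega))
    · exact same_pos (hC r hr h) (hC t ht (by omega))
  · rcases lt_trichotomy (s r) (s q) with h | h | h
    · rcases Nat.lt_or_ge (s t) (s q) with h5 | h5
      · exact same_neg (hA r hr h1' h) (hA t ht h2' h5)
      · exact same_neg (hA r hr h1' h) (hB t ht h4' (by omega))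
    · have h5 := hlt r hr h3' h
      have h6 := hf.dn q hq r hr c hc h.symm h5 hcq
      have h7 := hf.up q hq r hr t ht h.symm h5 (by omega)
      have h8 : o (f q) (f r) (f c) < 0 := by
        rw [o_swap (f q) (f r) (f c)]
        linarith
      have h9 : o (f q) (f r) (f q) = 0 := by unfold o; ring
      have h10 : o (f q) (f r) (f r) = 0 := by unfold o; ring
      exact sepo (f q) (f r) h8 h9.le h10.ge h7.le
    · exact same_pos (hC r hr h) (hC t ht (by omega))

end Pool.Agent.SGL.H75
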